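import Pool.Agent.J4H58.XC.Exd

/-!
# Order constraints do not increase the Poincaré constant of a permutation invariant measure

Let `μ` be any probability measure on `ℝⁿ` with a log-concave density invariant under permutations of
the coordinates, `R` any partial order on the coordinates and `μ_R` the measure `μ` conditioned on
`{x | x_i ≤ x_j if R i j}`.

* Every Poincaré inequality valid for `μ` holds for `μ_R`, with the same constant `K`; and
  `μ_R⁺(S) ≥ min(μ_R S, 1 - μ_R S) / (8 √K)` for all measurable `S`. The variance in the direction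
  `(1, …, 1)` is the same for `μ_R` and `μ`. So `μ_R` satisfies Q1 in its natural position if the Poincaré
  constant of `μ` is at most a constant times this variance: Q1 for `μ` itself gives Q1 for all `μ_R` if
  the coordinates of `μ` are not negatively correlated.
* If the coordinates are independent, with any log-concave law `ν`, then the Poincaré constant of `μ_R`
  is exactly that of `ν`, for every `n` and `R`, and Q1 holds for `μ_R` with the constant `1 / 56`.

By the theorem `Exchangeable` of the starting files and a theorem of E. Milman the Poincaré constant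
of every permutation invariant log-concave `μ` is at most an absolute constant times `‖Cov μ‖`.

Method. (1) Finite systems: `n` labelled particles, the unlabelled configuration `y` moves with
symmetric conductances and the labels of particles of consecutive ranks are exchanged with rates
which depend on `y`; an order constraint on the labels suppresses some exchanges. Suppose that
`|F(y, q ∘ (i j)) - F(y, q)| ≤ Θ_j(y) - Θ_i(y)` for `i < j` whenever both labellings are admissible, `Θ`
increasing in the rank. One step of the constrained chain for `F` and one step of a tagged particle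
of the unconstrained system for `Θ` preserve this: when exactly one of the two exchanges is admissible
the change is dominated by the monotonicity of `Θ`. So the dependence on the labels decays at least
at the rate of the spectral gap of the unconstrained system, and so does the mean over the admissible
labellings, a function of `y` only: the gap of the constrained system is not smaller. (2) Positive
continuous densities on cubes: particles on a fine grid, with fast exchanges of the labels of
particles at the same point; the grid inherits Poincaré's inequality from the cube by a smooth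
interpolation with the sharp constant; then the limit. No convexity is used. (3) General `μ`: convolution
with a narrow Gaussian, folding into a large cube by `x ↦ arcsin (sin x)` (which does not increase the
Poincaré constant), limits. (4) From Poincaré's to Cheeger's inequality for log-concave densities
(Buser, Ledoux). Independent points: `OrderConditioned` (modules `J4H*.OC`), the earlier form of
this hand-in, where the constant `48 Var ν` and the sharpness are proved.

Parts (modules `J4H*.XC`) by helpers 13, 21, 28, 30, 44, 46, 60, 67, 74, 93 and 58; (modules `J4H*.OC`)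
by helpers 8, 21, 47, 52, 57, 64, 98 and 58; the library `R972.OP` (order polytopes) is from the
starting files.
-/

set_option autoImplicit false

namespace Pool.Agent.Results.MP_6d896a_gt.OrderConstraints

open MeasureTheory Set
open scoped ENNReal InnerProductSpace

/-- Euclidean space of dimension `n` -/
abbrev Euc (n : ℕ) : Type := EuclideanSpace ℝ (Fin n)

/-- `ρ` is a log-concave probability density on `ℝⁿ` which does not change when the coordinates are
permuted -/
structure ExchangeableDensity {n : ℕ} (ρ : Euc n → ℝ) : Prop where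
  nonneg : ∀ x, 0 ≤ ρ x
  meas : Measurable ρ
  logc : ∀ x y, ∀ t : ℝ, 0 < t → t < 1 → ρ x ^ (1 - t) * ρ y ^ t ≤ ρ ((1 - t) • x + t • y)
  integrable : Integrable ρ
  integral_eq_one : ∫ x, ρ x = 1
  perm : ∀ σ : Equiv.Perm (Fin n), ∀ x y : Euc n, (∀ i, y i = x (σ i)) → ρ y = ρ x

/-- log-concave probability density on the line -/
structure LogConcaveDensity (w : ℝ → ℝ) : Prop where
  nonneg : ∀ x, 0 ≤ w x
  logConcave : ∀ x y t : ℝ, 0 < t → t < 1 → w x ^ (1 - t) * w y ^ t ≤ w ((1 - t) * x + t * y)
  integrable : Integrable w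
  integral_eq_one : ∫ x, w x = 1

/-- the measure with density `ρ` -/
noncomputable def law {n : ℕ} (ρ : Euc n → ℝ) : Measure (Euc n) :=
  volume.withDensity fun x => ENNReal.ofReal (ρ x)

/-- the law of one point: the measure with density `w` -/
noncomputable def point (w : ℝ → ℝ) : Measure ℝ := volume.withDensity fun x => ENNReal.ofReal (w x)

/-- the order cone -/
def cone {n : ℕ} (R : Fin n → Fin n → Prop) : Set (Euc n) := {x | ∀ i j, R i j → x i ≤ x j}

/-- `μ` conditioned on `A` -/
noncomputable def given {n : ℕ} (μ : Measure (Euc n)) (A : Set (Euc n)) : Measure (Euc n) :=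
  (μ A)⁻¹ • μ.restrict A

/-- the law of `n` independent points with density `w`, on Euclidean space -/
noncomputable def points (n : ℕ) (w : ℝ → ℝ) : Measure (Euc n) :=
  (Measure.pi fun _ : Fin n => point w).map (WithLp.toLp 2)

/-- Poincaré's inequality with constant `K`, for all `C¹` functions (both sides may be infinite) -/
def Poincare {E : Type} [NormedAddCommGroup E] [NormedSpace ℝ E] [MeasurableSpace E]
    (μ : Measure E) (K : ℝ) : Prop :=
  ∀ f : E → ℝ, ContDiff ℝ 1 f → ProbabilityTheory.evariance f μ ≤
    ENNReal.ofReal K * ∫⁻ x, ENNReal.ofReal (‖fderiv ℝ f x‖ ^ 2) ∂μ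

/-- the boundary measure `μ⁺(S)`, the lower limit of `(μ(S_ε) - μ(S)) / ε` for the open
neighbourhoods `S_ε` of `S` -/
noncomputable def bdry {n : ℕ} (μ : Measure (Euc n)) (S : Set (Euc n)) : ℝ≥0∞ :=
  Filter.liminf (fun ε : ℝ => (μ (Metric.thickening ε S) - μ S) / ENNReal.ofReal ε)
    (nhdsWithin 0 (Set.Ioi 0))

/-- `μ⁺(S) √s ≥ c min(μ S, μ Sᶜ)` for all measurable sets `S` and for every bound `s` of the variances of
the marginals of `μ` in directions of length one -/
def KLS {n : ℕ} (c : ℝ) (μ : Measure (Euc n)) : Prop :=
  ∀ s : ℝ, 0 < s →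
    (∀ θ : Euc n, ‖θ‖ = 1 → ProbabilityTheory.variance (fun x => ⟪x, θ⟫_ℝ) μ ≤ s) →
    ∀ S : Set (Euc n), MeasurableSet S →
      ENNReal.ofReal (c / Real.sqrt s) * min (μ S) (μ Sᶜ) ≤ bdry μ S

/-- `μ` is a probability measure with a log-concave density and finite second moments -/
def LogConcaveLaw {n : ℕ} (μ : Measure (Euc n)) : Prop :=
  IsProbabilityMeasure μ ∧ (∃ ρ : Euc n → ℝ, Measurable ρ ∧ (∀ x, 0 ≤ ρ x) ∧
    (∀ x y, ∀ t : ℝ, 0 < t → t < 1 → ρ x ^ (1 - t) * ρ y ^ t ≤ ρ ((1 - t) • x + t • y)) ∧
    μ = volume.withDensity fun x => ENNReal.ofReal (ρ x)) ∧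
  ∀ θ : Euc n, MemLp (fun x => ⟪x, θ⟫_ℝ) 2 μ

theorem ld_of {w : ℝ → ℝ} (h : LogConcaveDensity w) : Pool.Agent.J4H58.OC.LD w :=
  ⟨h.nonneg, h.logConcave, h.integrable, h.integral_eq_one⟩

theorem poincare_line {μ : Measure ℝ} {K : ℝ} :
    Poincare μ K ↔ Pool.Agent.J4H58.OC.PI1 μ K := by
  have e : ∀ (φ : ℝ → ℝ) (x : ℝ), deriv φ x ^ 2 = ‖fderiv ℝ φ x‖ ^ 2 := fun φ x => by
    rw [← norm_deriv_eq_norm_fderiv, Real.norm_eq_abs, sq_abs]
  unfold Poincare Pool.Agent.J4H58.OC.PI1
  simp only [e]

theorem law_eq {n : ℕ} (w : ℝ → ℝ) (R : Fin n → Fin n → Prop) :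
    given (points n w) (cone R) = Pool.Agent.J4H58.OC.law w R := by
  have hm : Measurable (WithLp.toLp 2 : (Fin n → ℝ) → EuclideanSpace ℝ (Fin n)) :=
    Pool.Agent.J4H58.OC.toLp_meas
  have hc : MeasurableSet (cone R) := Pool.Agent.J4H48.OC.ordE_meas R
  unfold given points Pool.Agent.J4H58.OC.law
  rw [Measure.map_apply hm hc, Measure.restrict_map hm hc, Measure.map_smul]
  rfl

/-- **Order constraints and Poincaré constants.** Partial orders `R` may be reflexive or strict: only
antisymmetry and transitivity are assumed; `ν` is the measure `μ` conditioned on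
`{x | x_i ≤ x_j if R i j}`.

(1) Let `μ` be a probability measure on `ℝⁿ`, `n ≥ 1`, with a log-concave density invariant under
permutations of the coordinates. Then `ν` is a log-concave probability measure; if `μ` satisfies Poincaré's inequality with
the constant `K > 0`, then `ν` satisfies it with the same `K`, and
`ν⁺(S) ≥ min(ν S, ν Sᶜ) / (8 √K)` for all measurable `S`; the variance of `∑ x_i` is the same for `ν` and
`μ`; so if `μ` satisfies Poincaré's inequality with `κ` times the variance of `∑ x_i / √n`, then
`ν⁺(S) √‖A‖ ≥ min(ν S, ν Sᶜ) / (8 √κ)`, `A` the covariance matrix of `ν`.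

(2) If `μ` is the law of `n` independent points with a log-concave density `w`, then `ν` satisfies
Poincaré's inequality with constant `K` if and only if the law of one point does, and
`ν⁺(S) √‖A‖ ≥ min(ν S, ν Sᶜ) / 56` for all measurable `S`. -/
theorem result :
    (∀ (n : ℕ) (ρ : Euc n → ℝ) (R : Fin n → Fin n → Prop), 1 ≤ n → ExchangeableDensity ρ →
      (∀ a b, R a b → R b a → a = b) → (∀ a b c, R a b → R b c → R a c) →
      ∀ μ ν : Measure (Euc n), μ = law ρ → ν = given μ (cone R) →
      LogConcaveLaw ν ∧
      (∀ K : ℝ, 0 < K → Poincare μ K → Poincare ν K ∧ ∀ S : Set (Euc n), MeasurableSet S →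
        ENNReal.ofReal (1 / (8 * Real.sqrt K)) * min (ν S) (ν Sᶜ) ≤ bdry ν S) ∧
      ProbabilityTheory.variance (fun x => ∑ i, x i) ν =
        ProbabilityTheory.variance (fun x => ∑ i, x i) μ ∧
      ∀ κ : ℝ, 0 < κ →
        Poincare μ (κ * (ProbabilityTheory.variance (fun x => ∑ i, x i) μ / n)) →
        KLS (1 / (8 * Real.sqrt κ)) ν) ∧
    (∀ (n : ℕ) (w : ℝ → ℝ) (R : Fin n → Fin n → Prop), 1 ≤ n → LogConcaveDensity w →
      (∀ a b, R a b → R b a → a = b) → (∀ a b c, R a b → R b c → R a c) →
      ∀ ν : Measure (Euc n), ν = given (points n w) (cone R) →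
      LogConcaveLaw ν ∧ (∀ K : ℝ, 0 < K → (Poincare ν K ↔ Poincare (point w) K)) ∧
      KLS (1 / 56) ν) := by
  constructor
  · intro n ρ R hn hρ h1 h2 μ ν hμ hν
    have hEx : Pool.Agent.J4H58.XC.Ex ρ :=
      ⟨⟨hρ.nonneg, hρ.meas, hρ.logc, hρ.integrable, hρ.integral_eq_one⟩,
        fun σ x => hρ.perm σ x _ fun i => rfl⟩
    obtain ⟨e, hL, hK, hv, hk⟩ := Pool.Agent.J4H58.XC.Exd.full hn hEx h1 h2
    have hν' : ν = Pool.Agent.J4H58.XC.muR ρ R := by
      rw [hν, hμ]
      exact e
    subst hν'
    subst hμ
    refine ⟨⟨Pool.Agent.J4H58.XC.muR_prob hL, ⟨Pool.Agent.J4H58.XC.rR ρ R, hL.meas, hL.nonneg,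
      hL.logc, rfl⟩, fun θ => Pool.Agent.J4H58.XC.Exd.memLp hn hL θ⟩, hK, hv, hk⟩
  · intro n w R hn hw hanti htr ν hν
    have hw' := ld_of hw
    have hR : Pool.Agent.J4H58.OC.pn w n (Pool.Agent.J4H58.OC.ord R) ≠ 0 :=
      Pool.Agent.J4H64.OC.t_POS w n R hw' hanti htr
    rw [law_eq] at hν
    have hprob := Pool.Agent.J4H58.OC.law_prob hw' hR
    subst hν
    obtain ⟨ρ, h1, h2⟩ := Pool.Agent.J4H52.OC.t_DEN w n R hw' hR
    refine ⟨⟨hprob, ⟨ρ, h1.meas, h1.nonneg, h1.logc, h2⟩, fun θ => ?_⟩, ?_, ?_⟩
    · rw [h2]
      exact Pool.Agent.J4H58.XC.Exd.memLp hn h1 θ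
    · intro K hK
      rw [poincare_line]
      exact Pool.Agent.J4H58.OC.pi_iff hw' hn hK R hR
    · intro s hs hvar S hS
      exact Pool.Agent.J4H58.OC.kls_sets Pool.Agent.J4H57.OC.t_APX hw' hn R hR hs hvar S hS

end Pool.Agent.Results.MP_6d896a_gt.OrderConstraints
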