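import Pool.Agent.J4H58.XC.All

/-!
# KLS for 1-symmetric log-concave measures conditioned on a partial order of the coordinates

Let `μ` be a log-concave probability measure on `ℝⁿ` which is invariant under permutations and sign
changes of the coordinates, for instance the uniform measure on the unit ball of any symmetric norm,
and let `R` be ANY partial order on the coordinates. Then Q1 holds for `μ` conditioned on the cone
`{x | x_i ≤ x_j if R i j}`, in its natural position, with an absolute constant, for all measurable
sets. For `R` empty this is the theorem `OneSymmetric` of the starting files on this page.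

The new tool is a comparison theorem (`Pool.Agent.J4H58.XC.comparison`): for a permutation invariant
density on a cube the conditioning on a partial order of the coordinates does not increase the
Poincaré constant. No convexity is used, and the number of linear extensions plays no role.

Method of the comparison. (1) Finite systems: `n` labelled particles, the unlabelled configuration `y`
moves with symmetric conductances and the labels of particles of consecutive ranks are exchanged with
rates which depend on `y`; an order constraint on the labels suppresses some exchanges. Suppose that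
`|F(y, q ∘ (i j)) - F(y, q)| ≤ Θ_j(y) - Θ_i(y)` for `i < j` whenever both labellings are admissible, `Θ`
increasing in the rank. One step of the constrained chain for `F` and one step of a tagged
particle of the unconstrained system for `Θ` preserve this: when exactly one of the two exchanges is
admissible the change is dominated by the monotonicity of `Θ`. So the dependence on the labels
decays at least at the rate of the spectral gap of the unconstrained system, and so does the mean over
the admissible labellings, which is a function of `y` only. Hence the constrained system has
at least the spectral gap of the full system. (2) Densities: particles on a fine grid, with fast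
exchanges of the labels of particles at the same point; the grid inherits Poincaré's inequality from
the cube by a smooth interpolation with the sharp constant; then the limit.

For the KLS inequality: regularisation by sup-convolution, restriction to cubes, the theorem on
1-symmetric measures for these, the comparison, limits; the variance in the direction `(1, …, 1)`
does not depend on the order (symmetric functions have the same mean on all order cones), and it
is the largest variance of `μ`; finally Cheeger's inequality from Poincaré's for log-concave densities.

Parts (modules `J4H*.XC`) by helpers 8, 13, 17, 28, 44, 46, 58, 60, 67, 74, 93, 98 and others; parts of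
`OrderConditioned` (`J4H*.OC`); the theorem `OneSymmetric` and its libraries.
-/

set_option autoImplicit false

namespace Pool.Agent.Results.MP_6d896a_gt.OrderedSymmetricMeasures

open MeasureTheory Set
open scoped ENNReal InnerProductSpace

/-- Euclidean space of dimension `n` -/
abbrev Euc (n : ℕ) : Type := EuclideanSpace ℝ (Fin n)

/-- `ρ` is a log-concave density on `ℝⁿ` which only depends on the absolute values of the
coordinates and does not change when the coordinates are permuted -/
structure SymDensity {n : ℕ} (ρ : Euc n → ℝ) : Prop where
  nonneg : ∀ x, 0 ≤ ρ x
  meas : Measurable ρ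
  logc : ∀ x y, ∀ t : ℝ, 0 < t → t < 1 → ρ x ^ (1 - t) * ρ y ^ t ≤ ρ ((1 - t) • x + t • y)
  inv : ∀ σ : Equiv.Perm (Fin n), ∀ x y : Euc n, (∀ i, |y i| = |x (σ i)|) → ρ y = ρ x

/-- the order cone -/
def cone {n : ℕ} (R : Fin n → Fin n → Prop) : Set (Euc n) := {x | ∀ i j, R i j → x i ≤ x j}

/-- the measure with density `ρ` -/
noncomputable def law {n : ℕ} (ρ : Euc n → ℝ) : Measure (Euc n) :=
  volume.withDensity fun x => ENNReal.ofReal (ρ x)

/-- `μ` conditioned on `A` -/
noncomputable def given {n : ℕ} (μ : Measure (Euc n)) (A : Set (Euc n)) : Measure (Euc n) :=
  (μ A)⁻¹ • μ.restrict A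

/-- the boundary measure `μ⁺(S)`, the lower limit of `(μ(S_ε) - μ(S)) / ε` for the open
neighbourhoods `S_ε` of `S` -/
noncomputable def bdry {n : ℕ} (μ : Measure (Euc n)) (S : Set (Euc n)) : ℝ≥0∞ :=
  Filter.liminf (fun ε : ℝ => (μ (Metric.thickening ε S) - μ S) / ENNReal.ofReal ε)
    (nhdsWithin 0 (Set.Ioi 0))

/-- `μ⁺(S) √s ≥ c min(μ S, μ Sᶜ)` for all measurable sets `S` and for every bound `s` of the variances of
the marginals of `μ` in directions of length one -/
def KLS {n : ℕ} (c : ℝ) (μ : Measure (Euc n)) : Prop :=
  ∀ s : ℝ, 0 < s →
    (∀ θ : Euc n, ‖θ‖ = 1 → ProbabilityTheory.variance (fun x => ⟪x, θ⟫_ℝ) μ ≤ s) →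
    ∀ S : Set (Euc n), MeasurableSet S →
      ENNReal.ofReal (c / Real.sqrt s) * min (μ S) (μ Sᶜ) ≤ bdry μ S

/-- **KLS for 1-symmetric measures with order constraints.** There is an absolute constant `c > 0`
such that for all `n ≥ 1`, every log-concave probability measure on `ℝⁿ` with a density `ρ`
invariant under permutations and sign changes of the coordinates and every partial order `R` on the
coordinates (reflexive or strict: only antisymmetry and transitivity are assumed), the measure `μ`
conditioned on the cone `{x | x_i ≤ x_j if R i j}` satisfies `μ⁺(S) √‖A‖ ≥ c min(μ S, μ Sᶜ)` for all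
measurable `S`, `A` its covariance matrix. In particular, with the same `c`: for every convex body `K`
invariant under permutations and sign changes of the coordinates, `K ∩ {x | x_i ≤ x_j if R i j}` is a
convex body and its uniform measure satisfies this. -/
theorem result : ∃ c : ℝ, 0 < c ∧
    (∀ (n : ℕ) (ρ : Euc n → ℝ) (R : Fin n → Fin n → Prop), 1 ≤ n → SymDensity ρ →
      IsProbabilityMeasure (law ρ) →
      (∀ a b, R a b → R b a → a = b) → (∀ a b c, R a b → R b c → R a c) →
      IsProbabilityMeasure (given (law ρ) (cone R)) ∧ KLS c (given (law ρ) (cone R))) ∧
    (∀ (n : ℕ) (K : Set (Euc n)) (R : Fin n → Fin n → Prop), 1 ≤ n → IsCompact K → Convex ℝ K →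
      (interior K).Nonempty →
      (∀ (σ : Equiv.Perm (Fin n)) (x y : Euc n), (∀ i, |y i| = |x (σ i)|) → x ∈ K → y ∈ K) →
      (∀ a b, R a b → R b a → a = b) → (∀ a b c, R a b → R b c → R a c) →
      (IsCompact (K ∩ cone R) ∧ Convex ℝ (K ∩ cone R) ∧ (interior (K ∩ cone R)).Nonempty) ∧
      IsProbabilityMeasure (given volume (K ∩ cone R)) ∧
      KLS c (given volume (K ∩ cone R))) := by
  obtain ⟨C, hC, H1, H2⟩ := Pool.Agent.J4H58.XC.all
  refine ⟨1 / (8 * Real.sqrt C), by positivity, ?_, ?_⟩
  · intro n ρ R hn hρ hprob h1 h2
    exact H1 n ρ R hn ⟨hρ.nonneg, hρ.meas, hρ.logc, hρ.inv⟩ hprob h1 h2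
  · intro n K R hn hK hK2 hK3 hinv h1 h2
    exact H2 n K R hn hK hK2 hK3 hinv h1 h2

end Pool.Agent.Results.MP_6d896a_gt.OrderedSymmetricMeasures
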