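import Pool.Agent.J4H58.SB.Asm
import Pool.Agent.J4H58.SB.Pos
import Pool.Agent.J4H17.KB.Upcb
import Pool.Agent.J4H17.KB.Adjb
import Pool.Agent.J4H18.KB.Goodb
import Pool.Agent.J4H18.KB.Connb
import Pool.Agent.J4H19.KB.Ptb
import Pool.Agent.J4H19.KB.Sumb
import Pool.Agent.J4H28.KB.Symb
import Pool.Agent.J4H42.KB.Latb
import Pool.Agent.J4H49.KB.M2
import Pool.Agent.J4H49.KB.Map
import Pool.Agent.J4H49.KB.Rsb
import Pool.Agent.J4H98.KB.Denb
import Pool.Agent.J4H98.KB.Varb

/-!
# KLS for independent points conditioned on signed order relations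

Let `ν` be any even log-concave law on the line and `μ` the law of `n` independent points
`x_1, …, x_n` with law `ν`, conditioned on any system of inequalities of the form `± x_i ≤ ± x_j`
(`i = j` is allowed: `x_i ≥ 0`) which has a strict solution. The cone of the solutions is any convex
union of Weyl chambers of type `B_n`.

* Every Poincaré inequality for `ν` holds for `μ`, with the same constant.
* Q1 holds for `μ`, in its natural position, with an absolute constant, for all measurable sets.

If `ν` is uniform on `[-1, 1]` then, with `y_i = (1 + x_i) / 2`, these are the uniform measures on the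
polytopes `{y ∈ [0,1]ⁿ | ℓ + ℓ' ≥ 1 for the clauses}`, where the `ℓ` are `y_i` or `1 - y_i`: the linear
programming relaxations of all 2-SAT formulas (with a strict solution). For example, for every graph,
the polytope `{y ∈ [0,1]ⁿ | y_i + y_j ≤ 1 for the edges ij}` (fractional stable sets), and all order
polytopes (the latter are in the starting files, `OrderPolytopes` on the page `MP_8d00da_gt`).

`OrderConditioned` on this page treats the inequalities `x_i ≤ x_j` (type `A`), for all log-concave laws,
even or not; the inequalities `x_i + x_j ≥ 0` and `x_i ≥ 0` are not of this form.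

Method. (1) Lattice: the labels and their mirror images sit at distinct sites of a path with `2N`
sites, symmetric about the centre; neighbouring sites are exchanged together with their mirror
images, at symmetric rates `c_k`, if the inequalities permit. If `W` is an odd increasing eigenfunction
of one particle with these rates, then the spectral gap of the constrained system is not smaller. This
is a path coupling in the style of Bubley and Dyer for the hyperoctahedral group: for an eigenfunction
`F` one considers the reflection `(i, j)` (exchange of the sites `i`, `j` and of their mirror images)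
with the largest quotient `|F(rs) - F(s)| / ω(i, j)`, where `ω(i, j) = W_j - W_i`, halved if `j` is the
mirror image of `i`. An elementary move which shortens the reflection is admissible for both `s`
and `rs`, and a move which is admissible for only one of them lengthens it by at least
the length of the move. (2) The limit `N → ∞` gives weighted Poincaré inequalities on the polytopes in
the cube, and the quantile function of `ν` those for `μ`. (3) For the covariance of `μ` there is no
symmetric linear function any more (for type `A` it was `∑ x_i`). Let `m` be the mean vector and `s`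
the largest variance of `μ`. For an odd increasing map `x ↦ x + D(x)` of the line the map of the
configurations preserves the cone and its density `∏ ρ(x_i)` is a symmetric function. So
`E ⟨m, D(x)⟩ = E (⟨m, x⟩ - |m|²) (∏ ρ(x_i) - 1) ≤ √s |m| ((∫ ρ² dν)ⁿ - 1)^{1/2}`, while
`∑ x_i D(x_i)` is symmetric and `E ⟨x - m, D(x)⟩ ≤ n √s sup |D|`: the variances cannot all
be small. (4) Cheeger's from Poincaré's inequality for all log-concave densities on `ℝⁿ`, as in
`OrderConditioned`.

Parts (modules `J4H*.KB`, `J4H58.SB`) by helpers 17 (kinds of exchanges, neighbouring labels), 18 (connectivity,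
symmetrisation of the weight), 19 (coupling, eigenvalues), 28 (symmetric functions), 42 (lattice
inequality), 49 (second moment, expansion of the line, Riemann sums), 98 (density, covariance) and 58; those of `OrderConditioned`
(helpers 8, 21, 47, 52, 57, 64, 98) and the library `R972.OP` of the starting files are used.
-/

set_option autoImplicit false

namespace Pool.Agent.Results.MP_6d896a_gt.SignedOrderCones

open MeasureTheory Set
open scoped ENNReal InnerProductSpace

/-- Euclidean space of dimension `n` -/
abbrev Euc (n : ℕ) : Type := EuclideanSpace ℝ (Fin n)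

/-- log-concave probability density on the line -/
structure LogConcaveDensity (w : ℝ → ℝ) : Prop where
  nonneg : ∀ x, 0 ≤ w x
  logConcave : ∀ x y t : ℝ, 0 < t → t < 1 → w x ^ (1 - t) * w y ^ t ≤ w ((1 - t) * x + t * y)
  integrable : Integrable w
  integral_eq_one : ∫ x, w x = 1

/-- the law of one point: the measure with density `w` -/
noncomputable def point (w : ℝ → ℝ) : Measure ℝ := volume.withDensity fun x => ENNReal.ofReal (w x)

/-- the value `x_i` of the signed label `(i, true)` and `-x_i` of the signed label `(i, false)` -/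
def val {n : ℕ} (x : Fin n → ℝ) (a : Fin n × Bool) : ℝ := if a.2 then x a.1 else -x a.1

/-- the cone of the inequalities `± x_i ≤ ± x_j`, one for every pair of signed labels related by `R` -/
def compatible {n : ℕ} (R : Fin n × Bool → Fin n × Bool → Prop) : Set (Fin n → ℝ) :=
  {x | ∀ a b, R a b → val x a ≤ val x b}

/-- the law of `n` independent points with density `w`, conditioned on the inequalities -/
noncomputable def conditioned {n : ℕ} (w : ℝ → ℝ) (R : Fin n × Bool → Fin n × Bool → Prop) :
    Measure (Euc n) :=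
  (ProbabilityTheory.cond (Measure.pi fun _ : Fin n => point w) (compatible R)).map (WithLp.toLp 2)

/-- Poincaré's inequality with constant `K`, for all `C¹` functions (both sides may be infinite) -/
def Poincare {E : Type} [NormedAddCommGroup E] [NormedSpace ℝ E] [MeasurableSpace E]
    (μ : Measure E) (K : ℝ) : Prop :=
  ∀ f : E → ℝ, ContDiff ℝ 1 f → ProbabilityTheory.evariance f μ ≤
    ENNReal.ofReal K * ∫⁻ x, ENNReal.ofReal (‖fderiv ℝ f x‖ ^ 2) ∂μ

/-- the boundary measure `μ⁺(S)`, the lower limit of `(μ(S_ε) - μ(S)) / ε` for the open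
neighbourhoods `S_ε` of `S` -/
noncomputable def bdry {n : ℕ} (μ : Measure (Euc n)) (S : Set (Euc n)) : ℝ≥0∞ :=
  Filter.liminf (fun ε : ℝ => (μ (Metric.thickening ε S) - μ S) / ENNReal.ofReal ε)
    (nhdsWithin 0 (Set.Ioi 0))

/-- `μ` has a log-concave density with respect to Lebesgue measure -/
def IsLogConcave {n : ℕ} (μ : Measure (Euc n)) : Prop :=
  ∃ ρ : Euc n → ℝ, Measurable ρ ∧ (∀ x, 0 ≤ ρ x) ∧
    (∀ x y, ∀ t : ℝ, 0 < t → t < 1 → ρ x ^ (1 - t) * ρ y ^ t ≤ ρ ((1 - t) • x + t • y)) ∧
    μ = volume.withDensity fun x => ENNReal.ofReal (ρ x)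

theorem ld_of {w : ℝ → ℝ} (h : LogConcaveDensity w) : Pool.Agent.J4H58.OC.LD w :=
  ⟨h.nonneg, h.logConcave, h.integrable, h.integral_eq_one⟩

theorem poincare_line {μ : Measure ℝ} {K : ℝ} :
    Poincare μ K ↔ Pool.Agent.J4H58.OC.PI1 μ K := by
  have e : ∀ (φ : ℝ → ℝ) (x : ℝ), deriv φ x ^ 2 = ‖fderiv ℝ φ x‖ ^ 2 := fun φ x => by
    rw [← norm_deriv_eq_norm_fderiv, Real.norm_eq_abs, sq_abs]
  unfold Poincare Pool.Agent.J4H58.OC.PI1
  simp only [e]

/-- **Independent points conditioned on signed order relations.** There is an absolute constant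
`c > 0` such that for every `n ≥ 1`, every even log-concave probability density `w` on the line and every
system `R` of inequalities `± x_i ≤ ± x_j` which has a solution with strict inequalities (those with
equal sides excepted), the law `μ` of `n` independent points with density `w`, conditioned
on the inequalities, has the following properties. It is a log-concave probability measure with
finite second moments. Every Poincaré inequality which holds for a single point holds for `μ` with the
same constant. And `μ⁺(S) ≥ c min(μ S, μ Sᶜ) / √s` for all measurable sets `S`, if `s` bounds the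
variances of `μ` in all directions of length one. -/
theorem result : ∃ c : ℝ, 0 < c ∧
    ∀ (n : ℕ) (w : ℝ → ℝ) (R : Fin n × Bool → Fin n × Bool → Prop), 1 ≤ n →
    LogConcaveDensity w → (∀ x, w (-x) = w x) →
    (∃ x : Fin n → ℝ, ∀ a b, R a b → a ≠ b → val x a < val x b) →
    ∀ μ : Measure (Euc n), μ = conditioned w R →
    (IsProbabilityMeasure μ ∧ IsLogConcave μ ∧ ∀ θ : Euc n, MemLp (fun x => ⟪x, θ⟫_ℝ) 2 μ) ∧
    (∀ K : ℝ, 0 < K → Poincare (point w) K → Poincare μ K) ∧
    ∀ s : ℝ, 0 < s →
      (∀ θ : Euc n, ‖θ‖ = 1 → ProbabilityTheory.variance (fun x => ⟪x, θ⟫_ℝ) μ ≤ s) →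
      ∀ S : Set (Euc n), MeasurableSet S →
        ENNReal.ofReal (c / Real.sqrt s) * min (μ S) (μ Sᶜ) ≤ bdry μ S := by
  have hTR : Pool.Agent.J4H58.SB.S_TRB := Pool.Agent.J4H58.SB.Trb.trb Pool.Agent.J4H47.OC.t_Q
    (Pool.Agent.J4H58.SB.Limb.limb
      (Pool.Agent.J4H42.KB.t_LATB
        (Pool.Agent.J4H19.KB.t_CONB Pool.Agent.J4H19.KB.t_PTB Pool.Agent.J4H19.KB.t_SUMB)
        Pool.Agent.J4H18.KB.t_CONNB)
      Pool.Agent.J4H49.KB.t_RSB Pool.Agent.J4H17.KB.t_ADJB Pool.Agent.J4H17.KB.t_UPCB)
  have hGB : Pool.Agent.J4H58.SB.S_GOODB := Pool.Agent.J4H18.KB.t_GOODB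
  have hDEN : Pool.Agent.J4H58.SB.S_DENB := Pool.Agent.J4H98.KB.t_DENB
  obtain ⟨c, hc, hV⟩ : Pool.Agent.J4H58.SB.S_VARB := Pool.Agent.J4H98.KB.t_VARB Pool.Agent.J4H49.KB.t_MAP
    Pool.Agent.J4H49.KB.t_M2 Pool.Agent.J4H28.KB.t_SYMB
  refine ⟨Real.sqrt c / 16, by positivity, ?_⟩
  intro n w R hn hw he hsol μ hμ
  have hw' := ld_of hw
  have hR : Pool.Agent.J4H58.OC.pn w n (Pool.Agent.J4H58.SB.ordB R) ≠ 0 :=
    Pool.Agent.J4H58.SB.Pos.pos hw' he R hsol
  have hlaw : conditioned w R = Pool.Agent.J4H58.SB.lawA w (Pool.Agent.J4H58.SB.ordB R) := rfl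
  rw [hlaw] at hμ
  have hprob := Pool.Agent.J4H58.SB.Asm.lawA_prob hw' hR
  subst hμ
  refine ⟨⟨hprob, ?_, ?_⟩, ?_, ?_⟩
  · obtain ⟨ρ, h1, h2⟩ := hDEN w n (Pool.Agent.J4H58.SB.ordB R) hw'
      (Pool.Agent.J4H58.SB.Trb.ordB_closed R) (Pool.Agent.J4H58.SB.Asm.ordB_convex R) hR
    exact ⟨ρ, h1.meas, h1.nonneg, h1.logc, h2⟩
  · intro θ
    have hlin : ContDiff ℝ 1 fun x : Euc n => ⟪x, θ⟫_ℝ := contDiff_id.inner ℝ contDiff_const
    have hw0 := Pool.Agent.J4H58.SB.Asm.w_pos hw' he
    have h1 := Pool.Agent.J4H58.SB.Asm.pi_sharp hTR hGB hw' he (by positivity)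
      (Pool.Agent.J4H58.OC.pi1_four hw' hw0) R hR _ hlin
    have h2 : ∀ x, ‖fderiv ℝ (fun x : Euc n => ⟪x, θ⟫_ℝ) x‖ ^ 2 ≤ ‖θ‖ ^ 2 := by
      intro x
      refine pow_le_pow_left₀ (norm_nonneg _) ?_ 2
      refine norm_fderiv_le_of_lip' ℝ (norm_nonneg θ) (Filter.Eventually.of_forall fun y => ?_)
      rw [← inner_sub_left, Real.norm_eq_abs, mul_comm]
      exact abs_real_inner_le_norm _ _
    have h3 : ProbabilityTheory.evariance (fun x : Euc n => ⟪x, θ⟫_ℝ)
        (Pool.Agent.J4H58.SB.lawA w (Pool.Agent.J4H58.SB.ordB R)) < ∞ := by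
      refine lt_of_le_of_lt h1 (ENNReal.mul_lt_top ENNReal.ofReal_lt_top ?_)
      calc _ ≤ ∫⁻ _x, ENNReal.ofReal (‖θ‖ ^ 2)
            ∂(Pool.Agent.J4H58.SB.lawA w (Pool.Agent.J4H58.SB.ordB R)) :=
            lintegral_mono fun x => ENNReal.ofReal_le_ofReal (h2 x)
        _ = ENNReal.ofReal (‖θ‖ ^ 2) := by simp
        _ < ∞ := ENNReal.ofReal_lt_top
    exact (ProbabilityTheory.evariance_lt_top_iff_memLp
      hlin.continuous.aestronglyMeasurable).1 h3
  · intro K hK h
    exact Pool.Agent.J4H58.SB.Asm.pi_sharp hTR hGB hw' he hK (poincare_line.1 h) R hR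
  · intro s hs hvar S hS
    exact Pool.Agent.J4H58.SB.Asm.kls_sets hTR hGB hDEN hc hV hw' he hn R hR hs hvar S hS

end Pool.Agent.Results.MP_6d896a_gt.SignedOrderCones
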