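import Pool.Agent.J4H10.KC.Full

/-!
# The KLS inequality for sums of independent random vectors

Let `S = X_1 + ... + X_N` be a sum of independent random vectors in `ℝⁿ`, with a log-concave density.
Q1 (the isoperimetric inequality for all measurable sets and the Poincare inequality, for `S` and for all
linear images `P S`, with a constant times `‖Cov P S‖`) is proved if each summand is of one of the
following two kinds:

* `X_i` satisfies the Poincare inequality with the constant `K ‖Cov P S‖` for all linear images `P X_i`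
  (`Poincare K`; for example, by `poincare_of_self`, if the inequality of Kannan, Lovasz and Simonovits is
  known for `X_i`, with the constant `K`; such `X_i` need not have log-concave densities); or
* `X_i` is an affine image of a log-concave vector (nothing is assumed about Poincare inequalities) and it
  is a small summand: `Tr (Cov(S)⁻¹ Cov(X_i)) ≤ ε` (`Small`).

The constants depend on `K` and `ε` only. The second kind includes all sums of `N ≥ n / ε` independent
log-concave vectors with the same covariance matrices, for example the laws of `X_1 + ... + X_N` for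
independent copies `X_i` of an arbitrary log-concave vector in `ℝⁿ` (second part of `result`), and
sums `∑ A_i X_i` with matrices `A_i`. There the constant in the Poincare inequality is `(1 + √(C ε))²`,
which tends to the constant 1 of Gaussian measures for `ε → 0`. For summands with the same covariance
matrix which satisfy the inequality with a constant `K` one gets `(1 + √(K / N))²` (`poincare_of_equal`);
so with Klartag's bound `K = C log n` (not formalised here) `N ≥ C log n` summands are enough.

Method. Let `B` be the covariance of `S` and let all `X_i` have Poincare constant at most `β`. Then for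
smooth functions `f`

  `Var f(S) ≤ α E ⟪B ∇f(S), ∇f(S)⟫ + β' (E |∇f(S)|² - |E ∇f(S)|²)`, `α = 1 + 1/t`, `β' = (1 + t) β`.

For a single vector `X` with Poincare constant `β` this follows if one writes `f(x) = ⟪E ∇f(X), x⟫ + g(x)`
with `E ∇g(X) = 0`. The inequality is stable under convolution: if it holds for `X` (with `B = Cov X`)
and for independent `Y`, then conditioning on `X` gives `Var f(X+Y) = E Var(f(X+Y) | X) + Var E(f(X+Y) | X)`,
and the terms `|E(∇f(X+Y) | X)|²` cancel (the sequence `E(∇f(S) | X_1, ..., X_i)` is a martingale). So it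
holds for all sums, and `⟪B a, a⟫ ≤ ‖B‖ |a|²` gives the inequality

  `C_P(X_1 + ... + X_N) ≤ (√‖Cov S‖ + √(max C_P(X_i)))²`

for Poincare constants. A log-concave vector `P X_i` has `C_P ≤ C E |P X_i - E P X_i|²` (Kannan, Lovasz
and Simonovits; Bobkov), which is at most `C ε ‖Cov P S‖` for small summands. For the isoperimetric
inequality Ledoux's inequality (from Poincare's to Cheeger's inequality for log-concave densities) is
used for the laws of `Q S` with linear bijections `Q` of `ℝⁿ`, and a linear image `P S` is compared with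
`Q S`, `‖Q x‖² = ‖P x‖² + ε² ‖x‖²`.
-/

set_option autoImplicit false

namespace Pool.Agent.Results.MP_6d896a_gt.SumsOfIndependentVectors

open MeasureTheory Set
open scoped ENNReal InnerProductSpace

/-- Euclidean space of dimension `n` -/
abbrev Euc (n : ℕ) : Type := EuclideanSpace ℝ (Fin n)

/-- the probability measure on `ℝⁿ` with density proportional to `w` -/
noncomputable def law {n : ℕ} (w : Euc n → ℝ) : Measure (Euc n) :=
  (∫⁻ x, ENNReal.ofReal (w x))⁻¹ • volume.withDensity fun x => ENNReal.ofReal (w x)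

/-- measurable nonnegative log-concave functions with a finite and positive integral -/
structure Density {n : ℕ} (w : Euc n → ℝ) : Prop where
  nonneg : ∀ x, 0 ≤ w x
  conc : ∀ x y, ∀ t : ℝ, 0 < t → t < 1 → w x ^ (1 - t) * w y ^ t ≤ w ((1 - t) • x + t • y)
  meas : Measurable w
  int : Integrable w
  pos : 0 < ∫ x, w x

/-- the law of the sum of `N` independent random vectors with the laws `μ 0, ..., μ (N - 1)` -/
noncomputable def sumLaw {n N : ℕ} (μ : Fin N → Measure (Euc n)) : Measure (Euc n) :=
  Measure.map (fun x : Fin N → Euc n => ∑ i, x i) (Measure.pi μ)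

/-- The Poincare inequality `Var v(P x) ≤ κ σ E ‖∇ v(P x)‖²`, `x` of law `μ`, for all linear maps `P`, all
bounds `σ` for the variances of the marginals of `P y`, `y` of law `ν`, in directions of length one, and
all `C¹` functions `v` which are bounded and have bounded gradients. (For `ν = μ` this is the
inequality in isotropic position for all marginals, with the constant `κ`.) -/
def Poincare {n : ℕ} (κ : ℝ) (ν μ : Measure (Euc n)) : Prop :=
  ∀ (k : ℕ) (P : Euc n →ₗ[ℝ] Euc k) (σ : ℝ), 0 < σ →
  (∀ θ : Euc k, ‖θ‖ = 1 → ProbabilityTheory.variance (fun x => ⟪P x, θ⟫_ℝ) ν ≤ σ) →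
  ∀ (v : Euc k → ℝ) (C : ℝ), ContDiff ℝ 1 v → (∀ y, |v y| ≤ C) → (∀ y, ‖fderiv ℝ v y‖ ≤ C) →
  ProbabilityTheory.variance (fun x => v (P x)) μ ≤ κ * σ * ∫ x, ‖fderiv ℝ v (P x)‖ ^ 2 ∂μ

/-- `μ` is the law of `b + L z`, where `z` has a log-concave density -/
def LogConcaveLaw {n : ℕ} (μ : Measure (Euc n)) : Prop :=
  ∃ (m : ℕ) (ρ : Euc m → ℝ) (L : Euc m →ₗ[ℝ] Euc n) (b : Euc n), Density ρ ∧
    μ = Measure.map (fun z => b + L z) (law ρ)

/-- `E ‖P x - E P x‖² ≤ ε σ`, `x` of law `μ`, for all linear maps `P` and all bounds `σ` for the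
variances of the marginals of `P y`, `y` of law `ν`, in directions of length one. If the covariance
matrix of `ν` is positive definite, this means `Tr (Cov(ν)⁻¹ Cov(μ)) ≤ ε`. -/
def Small {n : ℕ} (ε : ℝ) (ν μ : Measure (Euc n)) : Prop :=
  ∀ (k : ℕ) (P : Euc n →ₗ[ℝ] Euc k) (σ : ℝ), 0 < σ →
  (∀ θ : Euc k, ‖θ‖ = 1 → ProbabilityTheory.variance (fun x => ⟪P x, θ⟫_ℝ) ν ≤ σ) →
  ∫ x, ‖P x - ∫ z, P z ∂μ‖ ^ 2 ∂μ ≤ ε * σ

/-- the boundary measure `μ⁺(S)`, the lower limit of `(μ(S_ε) - μ(S)) / ε` for the open
neighbourhoods `S_ε` of `S` -/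
noncomputable def bdry {n : ℕ} (μ : Measure (Euc n)) (S : Set (Euc n)) : ℝ≥0∞ :=
  Filter.liminf (fun ε : ℝ => (μ (Metric.thickening ε S) - μ S) / ENNReal.ofReal ε)
    (nhdsWithin 0 (Set.Ioi 0))

/-- `μ⁺(S) √σ ≥ c min(μ S, μ Sᶜ)` for all measurable sets `S` and every bound `σ` of the variances of
the marginals of `μ` in directions of length one -/
def KLS {n : ℕ} (c : ℝ) (μ : Measure (Euc n)) : Prop :=
  ∀ σ : ℝ, 0 < σ →
    (∀ θ : Euc n, ‖θ‖ = 1 → ProbabilityTheory.variance (fun x => ⟪x, θ⟫_ℝ) μ ≤ σ) →
    ∀ S : Set (Euc n), MeasurableSet S →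
      ENNReal.ofReal (c / Real.sqrt σ) * min (μ S) (μ Sᶜ) ≤ bdry μ S

/-- all linear images `μ` of the probability measure with density proportional to `w` satisfy
`KLS c μ` -/
def ImagesKLS {m : ℕ} (c : ℝ) (w : Euc m → ℝ) : Prop :=
  ∀ (n : ℕ) (L : Euc m →ₗ[ℝ] Euc n) (μ : Measure (Euc n)), μ = Measure.map L (law w) →
    IsProbabilityMeasure μ ∧ KLS c μ

theorem LogConcaveLaw.lcl {n : ℕ} {μ : Measure (Euc n)} (h : LogConcaveLaw μ) :
    Pool.Agent.J4H10.KC.LCL μ := by
  obtain ⟨m, ρ, L, b, hρ, hμ⟩ := h
  exact ⟨m, ρ, L, b, hρ.nonneg, hρ.meas, hρ.conc, hρ.pos, hμ⟩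

theorem images {r : ℝ} (hr : 0 < r) {m : ℕ} {w : Euc m → ℝ} (hw : Density w)
    (hp : Poincare (r ^ 2) (law w) (law w)) : ImagesKLS (1 / (16 * r)) w := by
  intro n L μ hμ
  have h := Pool.Agent.J4H10.KC.full_of_poi (r ^ 2) (by positivity) m w
    ⟨hw.nonneg, Pool.Agent.Y506.PV.int_moment hw.nonneg hw.meas hw.conc hw.pos, hw.pos, hw.meas⟩
    hw.conc hp n L μ hμ
  rw [Real.sqrt_sq hr.le] at h
  exact h

/-- **KLS for sums of independent random vectors.** There is a constant `C > 0` with the following
properties for all `ε > 0`, all `n, N`, and all sums `S = X_1 + ... + X_N` of independent random vectors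
in `ℝⁿ` such that `S` has a log-concave density `w`.

1. Let the `X_i` have finite second moments, let `K > 0`, and let each `X_i` satisfy `Poincare K` relative
to `S`, or be an affine image of a log-concave vector with `Tr (Cov(S)⁻¹ Cov(X_i)) ≤ ε`. Then all linear
images of `S` satisfy the Poincare inequality of Kannan, Lovasz and Simonovits with the constant `r²` and
the isoperimetric inequality with the constant `1 / (16 r)`, where `r = 1 + √(max(K, C ε))`.

2. Let the `X_i` be affine images of log-concave vectors which have the same covariance matrix, and let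
`N ≥ n / ε`. Then the same is true with `r = 1 + √(C ε)`. -/
theorem result : ∃ C : ℝ, 0 < C ∧
    (∀ K ε : ℝ, 0 < K → 0 < ε →
      ∀ (n N : ℕ) (μ : Fin N → Measure (Euc n)) (w : Euc n → ℝ),
        (∀ i, IsProbabilityMeasure (μ i)) → (∀ i, MemLp id 2 (μ i)) → Density w →
        law w = sumLaw μ →
        (∀ i, Poincare K (sumLaw μ) (μ i) ∨ (LogConcaveLaw (μ i) ∧ Small ε (sumLaw μ) (μ i))) →
        Poincare ((1 + √(max K (C * ε))) ^ 2) (law w) (law w) ∧
          ImagesKLS (1 / (16 * (1 + √(max K (C * ε))))) w) ∧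
    (∀ ε : ℝ, 0 < ε →
      ∀ (n N : ℕ) (μ : Fin N → Measure (Euc n)) (w : Euc n → ℝ), (n : ℝ) ≤ ε * N →
        (∀ i, LogConcaveLaw (μ i)) → Density w → law w = sumLaw μ →
        (∀ i j (θ : Euc n), ProbabilityTheory.variance (fun x => ⟪x, θ⟫_ℝ) (μ i) =
          ProbabilityTheory.variance (fun x => ⟪x, θ⟫_ℝ) (μ j)) →
        Poincare ((1 + √(C * ε)) ^ 2) (law w) (law w) ∧
          ImagesKLS (1 / (16 * (1 + √(C * ε)))) w) := by
  obtain ⟨C, hC, H⟩ := Pool.Agent.J4H10.KC.main
  have hpart : ∀ K ε : ℝ, 0 < K → 0 < ε →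
      ∀ (n N : ℕ) (μ : Fin N → Measure (Euc n)) (w : Euc n → ℝ),
        (∀ i, IsProbabilityMeasure (μ i)) → (∀ i, MemLp id 2 (μ i)) → Density w →
        law w = sumLaw μ →
        (∀ i, Poincare K (sumLaw μ) (μ i) ∨ (LogConcaveLaw (μ i) ∧ Small ε (sumLaw μ) (μ i))) →
        Poincare ((1 + √(max K (C * ε))) ^ 2) (law w) (law w) ∧
          ImagesKLS (1 / (16 * (1 + √(max K (C * ε))))) w := by
    intro K ε hK hε n N μ w h1 h2 hw hl hcl
    have h3 := H n N μ h1 h2 K ε hK hε fun i => (hcl i).imp (fun h => h) fun h => ⟨h.1.lcl, h.2⟩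
    have h4 : Poincare ((1 + √(max K (C * ε))) ^ 2) (law w) (law w) := by
      rw [hl]
      exact h3
    exact ⟨h4, images (by positivity) hw h4⟩
  refine ⟨C, hC, hpart, fun ε hε n N μ w hN h1 hw hl hcov => ?_⟩
  have hp := fun i => (h1 i).lcl.prob
  have hpr := fun i => (hp i).1
  have key := hpart (C * ε) ε (mul_pos hC hε) hε n N μ w hpr (fun i => (hp i).2) hw hl fun i =>
    Or.inr ⟨h1 i, Pool.Agent.J4H10.KC.sml_of_equal μ (fun i => (hp i).2) hN hcov i⟩
  rwa [max_self] at key

/-- summands with the inequality for their own covariance -/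
theorem poincare_of_self {n N : ℕ} (μ : Fin N → Measure (Euc n))
    (h1 : ∀ i, IsProbabilityMeasure (μ i)) (h2 : ∀ i, MemLp id 2 (μ i)) {K : ℝ} (i : Fin N)
    (h : Poincare K (μ i) (μ i)) : Poincare K (sumLaw μ) (μ i) :=
  Pool.Agent.J4H10.KC.poi_of_self μ h2 i h

/-- Summands with the same covariance and with the inequality for their own covariance: if log-concave
vectors in `ℝⁿ` satisfy the inequality with the constant `K` (`K = C log n` is known, Klartag), then
`result` gives the constant `(1 + √(K / N))²` for sums of `N` of them, for example 4 for `N ≥ K`. -/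
theorem poincare_of_equal {n N : ℕ} (μ : Fin N → Measure (Euc n))
    (h1 : ∀ i, IsProbabilityMeasure (μ i)) (h2 : ∀ i, MemLp id 2 (μ i))
    (hcov : ∀ i j (θ : Euc n), ProbabilityTheory.variance (fun x => ⟪x, θ⟫_ℝ) (μ i) =
      ProbabilityTheory.variance (fun x => ⟪x, θ⟫_ℝ) (μ j)) {K : ℝ} (i : Fin N)
    (h : Poincare K (μ i) (μ i)) : Poincare (K / N) (sumLaw μ) (μ i) :=
  Pool.Agent.J4H10.KC.poi_of_equal μ h2 hcov i h

end Pool.Agent.Results.MP_6d896a_gt.SumsOfIndependentVectors
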